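import Pool.Agent.R461.HM.MoM
import Pool.Agent.R461.HM.AP

set_option autoImplicit false

/-!
# MP_abec59_nt: the moments of the mass of `|ζ|²` on unit windows along sparse sets of heights

Fyodorov, Hiary and Keating derived their conjecture on the local maxima of zeta from the moments of the partition functions
`∫ |ζ(1/2 + i(t + h))|^(2β) dh` over windows of length one (moments of moments). For `β = 1` and every integer `q ≥ 1` the
`q`-th moment of the mass of a smooth unit window has at least the supercritical order `(log T)^(q² - q + 1)` predicted by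
them, the heights `t` being distributed by any probability measure on `[T, 2T]` (singular or discrete) with small integrals
of `(m/n)^(it)`, `m n ≤ T^κ`, in particular along all arithmetic progressions of `T^κ` heights with almost every spacing.
-/

namespace Pool.Agent.Results.MP_abec59_nt.MomentsOfTheMass

open Complex MeasureTheory Filter Topology Set
open scoped ENNReal

noncomputable section

/-- the mass of `|ζ(1/2 + i(t + h))|²`, `h` in a smooth unit window (weight `(1 + |h|)^(-N)`) -/
def mass (N : ℕ) (t : ℝ) : ℝ≥0∞ :=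
  ∫⁻ h : ℝ, ENNReal.ofReal (‖riemannZeta (1 / 2 + I * (t + h))‖ ^ 2 / (1 + |h|) ^ N)

/-- probability measures of heights in `[T, 2T]` for which the characters with `m n ≤ T^κ` have small integrals -/
structure Heights (T κ : ℝ) (ν : Measure ℝ) : Prop where
  prob : IsProbabilityMeasure ν
  supp : ∀ᵐ t ∂ν, t ∈ Icc T (2 * T)
  small : ∀ m n : ℕ, 1 ≤ m → 1 ≤ n → m ≠ n → (m : ℝ) * n ≤ T ^ κ →
    ‖∫ t : ℝ, exp (I * (t * Real.log (m / n))) ∂ν‖ ≤ T ^ (-κ) * (1 + 1 / |Real.log (m / n)|)

lemma mass_eq (N : ℕ) (t : ℝ) : mass N t = R461.HM.mass N t := rfl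

/-- Let `q ≥ 1`, `N`, `κ > 0`. (1) There are `c > 0`, `T₀` such that for `T ≥ T₀` and all probability measures `ν` of heights
in `[T, 2T]` with the parameter `κ` the `q`-th moment of the mass is at least `c (log T)^(q² - q + 1)`. (2) There is `c > 0`
such that for almost every `d > 0` there is `T₀` with: for `T ≥ T₀` and all arithmetic progressions `x + j d`, `j < J`, in
`[T, 2T]` with `J ≥ T^κ` terms the mean of the `q`-th powers of the masses is at least `c (log T)^(q² - q + 1)`. -/
theorem result (q : ℕ) (hq : 1 ≤ q) (N : ℕ) (κ : ℝ) (hκ : 0 < κ) :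
    (∃ c T₀ : ℝ, 0 < c ∧ ∀ T : ℝ, T₀ ≤ T → ∀ ν : Measure ℝ, Heights T κ ν →
      ENNReal.ofReal (c * Real.log T ^ (q ^ 2 - q + 1)) ≤ ∫⁻ t, mass N t ^ q ∂ν) ∧
    (∃ c : ℝ, 0 < c ∧ ∀ᵐ d : ℝ, 0 < d → ∃ T₀ : ℝ, ∀ T : ℝ, T₀ ≤ T → ∀ J : ℕ, T ^ κ ≤ J → ∀ x : ℝ, T ≤ x →
      x + J * d ≤ 2 * T →
      ENNReal.ofReal (c * Real.log T ^ (q ^ 2 - q + 1)) ≤
        (J : ℝ≥0∞)⁻¹ * ∑ j ∈ Finset.range J, mass N (x + j * d) ^ q) := by
  simp only [mass_eq]
  constructor
  · obtain ⟨c, T₀, hc, hT₀, h⟩ := R461.HM.mass_main hq N hκ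
    exact ⟨c, T₀, hc, fun T hT ν hν => h T hT ν hν.prob hν.supp hν.small⟩
  · obtain ⟨c, T₀, hc, hT₀, hlow⟩ := R461.HM.mass_main hq N (κ := κ / 10) (by positivity)
    refine ⟨c, hc, ?_⟩
    filter_upwards [R461.HM.ap_small hκ] with d hd hpos
    obtain ⟨T₁, hT₁, hsm⟩ := hd hpos
    refine ⟨max T₀ T₁, fun T hT J hJ x hx1 hx2 => ?_⟩
    have hTa := (le_max_left _ _).trans hT
    have hTb := (le_max_right _ _).trans hT
    have hT1 : 1 ≤ T := hT₁.trans hTb
    have hJ1 : 1 ≤ J := by
      have h1 : (1:ℝ) ≤ J := (Real.one_le_rpow hT1 hκ.le).trans hJ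
      exact_mod_cast h1
    have hν : R461.HM.Heights T (T ^ (κ / 10)) (T ^ (-(κ / 10))) (R461.HM.unif J (fun j => x + j * d)) := by
      refine R461.HM.unif_heights hJ1 (fun j hj => ?_) (fun m n hm hn hmn hY => hsm T hTb J hJ x m n hm hn hmn (by
        rwa [show 2 * (κ / 20) = κ / 10 by ring]))
      have h2 : (j:ℝ) ≤ J := by exact_mod_cast hj.le
      constructor
      · have : 0 ≤ (j:ℝ) * d := by positivity
        linarith
      · have : (j:ℝ) * d ≤ J * d := by gcongr
        linarith
    have h3 := hlow T hTa _ hν.prob hν.supp hν.small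
    refine h3.trans (le_of_eq ?_)
    unfold R461.HM.unif
    rw [lintegral_smul_measure, lintegral_finsetSum_measure]
    have hm : Measurable fun t => R461.HM.mass N t ^ q := by
      refine Measurable.pow_const ?_ q
      have e : (R461.HM.mass N) = fun t => ∫⁻ h : ℝ, ENNReal.ofReal (R461.HM.zz 1 (t + h) / (1 + |h|) ^ N) :=
        funext (R461.HM.mass_eq N)
      rw [e]
      have hjoint : Continuous fun p : ℝ × ℝ => R461.HM.zz 1 (p.1 + p.2) / (1 + |p.2|) ^ N := by
        refine Continuous.div ((R461.HM.zz_cont 1).comp (by fun_prop : Continuous fun p : ℝ × ℝ => p.1 + p.2))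
          (by fun_prop) fun p => ?_
        positivity
      exact hjoint.measurable.ennreal_ofReal.lintegral_prod_right'
    simp only [lintegral_dirac' _ hm, smul_eq_mul]

end

end Pool.Agent.Results.MP_abec59_nt.MomentsOfTheMass
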